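import Pool.Agent.W227.FC.Growth

/-!
# MP_491344_nt: thresholds inside the class of sets of low factor complexity

Let `p_A(L)` be the number of different blocks of `L` consecutive terms of the characteristic
sequence of `A ⊆ ℕ`.  Let `β < 1 / 2`, `γ ≥ 1` and `γ ^ K (1 / 2 + β) < 1`.  If
`|A ∩ {1, ..., N}| ≥ c √N / g(N)` for all large `N`, where `g(N) ≤ N ^ β` for arbitrarily large
`N`, and if `p_A(L) ≤ L ^ γ` for all large `L`, then `r_A(n) > K + 1` for some `n`.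

So inside the class of all sets `A` with `p_A(L) ≤ L ^ (1 + o(1))` every function
`g(N) ≤ N ^ (1 / 2 - δ)`, `δ > 0`, forces unbounded representations.
-/

set_option autoImplicit false

open Filter

namespace Pool.Agent.Results.MP_491344_nt.LowComplexityThresholds

/-- The number of ordered pairs `(a, b) ∈ A × A` with `a + b = n`. -/
noncomputable def rep (A : Set ℕ) (n : ℕ) : ℕ :=
  {p : ℕ × ℕ | p.1 ∈ A ∧ p.2 ∈ A ∧ p.1 + p.2 = n}.ncard

/-- The factor complexity `p_A(L)`: the number of different subsets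
`{i | 0 ≤ i < L, s + i ∈ A}` of `{0, ..., L - 1}`, for `s = 0, 1, 2, ...`. -/
noncomputable def complexity (A : Set ℕ) (L : ℕ) : ℕ :=
  (Set.range (fun s : ℕ => {i : Fin L | s + (i : ℕ) ∈ A})).ncard

/-- `|A ∩ {1, ..., N}| ≫ N ^ (1 / 2) / g(N)`. -/
def Dense (g : ℕ → ℝ) (A : Set ℕ) : Prop :=
  ∃ C : ℝ, 0 < C ∧ ∀ᶠ N : ℕ in atTop,
    (N : ℝ) ^ (1 / 2 : ℝ) / g N ≤ C * (A ∩ Set.Icc 1 N).ncard

theorem general (g : ℕ → ℝ) (hg0 : ∀ N, 0 < g N) (A : Set ℕ) (hA : Dense g A) (K : ℕ) (β γ : ℝ)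
    (hβ : β < 1 / 2) (hγ : 1 ≤ γ) (hm : γ ^ K * (1 / 2 + β) < 1)
    (hg : ∃ᶠ N : ℕ in atTop, g N ≤ (N : ℝ) ^ β)
    (hp : ∀ᶠ L : ℕ in atTop, (complexity A L : ℝ) ≤ (L : ℝ) ^ γ) : ∃ n, K + 1 < rep A n := by
  obtain ⟨C, hC, hA⟩ := hA
  -- choose `α < 1 / 2 - β` with `γ ^ K (1 - α) < 1`
  have hpos : 0 < γ ^ K := by positivity
  have h1 : 1 - 1 / γ ^ K < 1 / 2 - β := by
    have : 1 / 2 + β < 1 / γ ^ K := by
      rw [lt_div_iff₀ hpos]
      linarith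
    linarith
  obtain ⟨α', hα1, hα2⟩ := exists_between h1
  set α := max α' 0 with hαdef
  have hα3 : α < 1 / 2 - β := max_lt hα2 (by linarith)
  have hm' : γ ^ K * (1 - α) < 1 := by
    have h2 : 1 - α < 1 / γ ^ K := by
      have := le_max_left α' 0
      linarith
    rw [lt_div_iff₀ hpos] at h2
    linarith
  have hfreq : ∃ᶠ N : ℕ in atTop, (N : ℝ) ^ α ≤ (A ∩ Set.Iio N).ncard := by
    have h2 := Pool.Agent.W227.FC.pow_below (c := 1 / (C * 2 ^ α)) (α := α) (β := 1 / 2 - β)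
      (by positivity) hα3
    have h3 : ∃ᶠ N : ℕ in atTop, ((N + 1 : ℕ) : ℝ) ^ α ≤ (A ∩ Set.Iio (N + 1)).ncard := by
      refine (hg.and_eventually (hA.and (h2.and (eventually_ge_atTop 1)))).mono ?_
      rintro N ⟨h4, h5, h6, h7⟩
      have hN : (1 : ℝ) ≤ N := by exact_mod_cast h7
      have hN0 : (0 : ℝ) < N := by linarith
      have h8 : (N : ℝ) ^ (1 / 2 - β : ℝ) ≤ (N : ℝ) ^ (1 / 2 : ℝ) / g N := by
        rw [Real.rpow_sub hN0]
        apply div_le_div_of_nonneg_left (by positivity) (hg0 N) h4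
      have h9 : ((N + 1 : ℕ) : ℝ) ^ α ≤ 2 ^ α * (N : ℝ) ^ α := by
        rw [← Real.mul_rpow (by norm_num) hN0.le]
        apply Real.rpow_le_rpow (by positivity) _ (le_max_right _ _)
        push_cast
        linarith
      have h10 : (A ∩ Set.Icc 1 N).ncard ≤ (A ∩ Set.Iio (N + 1)).ncard := by
        apply Set.ncard_le_ncard _ ((Set.finite_Iio (N + 1)).subset fun a ha => ha.2)
        intro x hx
        refine ⟨hx.1, ?_⟩
        have := hx.2.2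
        rw [Set.mem_Iio]
        omega
      have h11 : ((A ∩ Set.Icc 1 N).ncard : ℝ) ≤ (A ∩ Set.Iio (N + 1)).ncard := by
        exact_mod_cast h10
      have h12 : (0 : ℝ) < 2 ^ α := by positivity
      calc ((N + 1 : ℕ) : ℝ) ^ α ≤ 2 ^ α * (N : ℝ) ^ α := h9
        _ ≤ 2 ^ α * (1 / (C * 2 ^ α) * (N : ℝ) ^ (1 / 2 - β)) :=
            mul_le_mul_of_nonneg_left h6 h12.le
        _ = 1 / C * (N : ℝ) ^ (1 / 2 - β) := by
            field_simp
        _ ≤ 1 / C * (C * (A ∩ Set.Icc 1 N).ncard) := by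
            apply mul_le_mul_of_nonneg_left (le_trans h8 h5) (by positivity)
        _ = (A ∩ Set.Icc 1 N).ncard := by
            field_simp
        _ ≤ (A ∩ Set.Iio (N + 1)).ncard := h11
    rw [frequently_atTop] at h3 ⊢
    intro N0
    obtain ⟨N, hN1, hN2⟩ := h3 N0
    exact ⟨N + 1, by omega, hN2⟩
  obtain ⟨a, l, hl, hpos', hc⟩ := Pool.Agent.W227.FC.cube_of_complexity hγ hp hfreq K hm'
  obtain ⟨n, hn⟩ := Pool.Agent.W227.FC.rep_pairs hl hpos' hc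
  exact ⟨n, by unfold rep; omega⟩

theorem result :
    (∀ g : ℕ → ℝ, (∀ N, 0 < g N) → ∀ A : Set ℕ, Dense g A → ∀ (K : ℕ) (β γ : ℝ),
      β < 1 / 2 → 1 ≤ γ → γ ^ K * (1 / 2 + β) < 1 →
      (∃ᶠ N : ℕ in atTop, g N ≤ (N : ℝ) ^ β) →
      (∀ᶠ L : ℕ in atTop, (complexity A L : ℝ) ≤ (L : ℝ) ^ γ) → ∃ n, K + 1 < rep A n) ∧
    (∀ g : ℕ → ℝ, (∀ N, 0 < g N) → ∀ δ : ℝ, 0 < δ →
      (∃ᶠ N : ℕ in atTop, g N ≤ (N : ℝ) ^ (1 / 2 - δ)) →
      ∀ A : Set ℕ, Dense g A →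
        (∀ ε : ℝ, 0 < ε → ∀ᶠ L : ℕ in atTop, (complexity A L : ℝ) ≤ (L : ℝ) ^ (1 + ε)) →
        ∀ K : ℕ, ∃ n, K < rep A n) := by
  refine ⟨fun g hg0 A hA K β γ hβ hγ hm hg hp => general g hg0 A hA K β γ hβ hγ hm hg hp, ?_⟩
  intro g hg0 δ hδ hg A hA hlow K
  obtain ⟨ε, hε, hm⟩ := Pool.Agent.W227.FC.exists_gamma hδ K
  have hm' : (1 + ε) ^ K * (1 / 2 + (1 / 2 - δ)) < 1 := by
    rw [show (1 / 2 + (1 / 2 - δ) : ℝ) = 1 - δ by ring]
    exact hm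
  obtain ⟨n, hn⟩ := general g hg0 A hA K (1 / 2 - δ) (1 + ε) (by linarith) (by linarith) hm' hg
    (hlow ε hε)
  exact ⟨n, by omega⟩

end Pool.Agent.Results.MP_491344_nt.LowComplexityThresholds
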